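import Mathlib
import Pool.Agent.U180.NG.Stm2

/-!
Project NG (helper180), second part, package TU (helper600): upper bound of the tails (Bernstein).
-/

set_option autoImplicit false

open MeasureTheory ProbabilityTheory Filter Topology

namespace Pool.Agent.U600.NG

open Pool.Agent.U180.NG

/-- the exponent -/
theorem expo (V W t : ℝ) (hW : 0 < W) (hV : V ≤ W) (ht : 0 ≤ t) :
    -(t / W) * t + (1 + 2 * (t / W)) * V * (t / W) ^ 2 / 2 ≤
      -((1 - 2 * t / W) * t ^ 2 / (2 * W)) := by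
  have h0 : 0 ≤ t / W := div_nonneg ht hW.le
  have h1 : (1 + 2 * (t / W)) * V * (t / W) ^ 2 / 2 ≤ (1 + 2 * (t / W)) * W * (t / W) ^ 2 / 2 := by
    have : 0 ≤ (1 + 2 * (t / W)) * (t / W) ^ 2 / 2 := by positivity
    nlinarith [mul_le_mul_of_nonneg_left hV this]
  refine (add_le_add_right h1 _).trans (le_of_eq ?_)
  field_simp
  ring

theorem t_TU (h : S_SMGF) : S_TU := by
  intro Ω ι _ P hP X S W t hX hind h01 hW hVW ht0 htW
  set T : Ω → ℝ := fun ω => ∑ i ∈ S, (X i ω - ∫ ω, X i ω ∂P) with hT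
  set V : ℝ := ∑ i ∈ S, (∫ ω, X i ω ∂P) * (1 - ∫ ω, X i ω ∂P) with hV
  have hTm : Measurable T := by
    refine Finset.measurable_sum S fun i _ => ?_
    exact (hX i).sub_const _
  set lam : ℝ := t / W with hlam
  have hl0 : 0 ≤ lam := div_nonneg ht0 hW.le
  have hl1 : lam ≤ 1 / 4 := by
    rw [hlam, div_le_iff₀ hW]; linarith
  -- bound of T
  have hTb : ∀ ω, |T ω| ≤ ∑ i ∈ S, (1 + |∫ ω, X i ω ∂P|) := by
    intro ω
    refine (Finset.abs_sum_le_sum_abs _ _).trans (Finset.sum_le_sum fun i _ => ?_)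
    refine (abs_sub _ _).trans (add_le_add_left ?_ _)
    rcases h01 i ω with h | h <;> rw [h] <;> norm_num
  have hint : ∀ c : ℝ, Integrable (fun ω => Real.exp (c * T ω)) P := by
    intro c
    refine Integrable.of_bound ((hTm.const_mul c).exp).aestronglyMeasurable
      (Real.exp (|c| * ∑ i ∈ S, (1 + |∫ ω, X i ω ∂P|))) (Eventually.of_forall fun ω => ?_)
    rw [Real.norm_eq_abs, abs_of_pos (Real.exp_pos _)]
    apply Real.exp_le_exp.2
    calc c * T ω ≤ |c * T ω| := le_abs_self _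
      _ = |c| * |T ω| := abs_mul _ _
      _ ≤ _ := mul_le_mul_of_nonneg_left (hTb ω) (abs_nonneg _)
  have key : Real.exp (-lam * t) * Real.exp ((1 + 2 * lam) * V * lam ^ 2 / 2) ≤
      Real.exp (-((1 - 2 * t / W) * t ^ 2 / (2 * W))) := by
    rw [← Real.exp_add]
    exact Real.exp_le_exp.2 (expo V W t hW hVW ht0)
  have h1 : P.real {ω | t ≤ T ω} ≤ Real.exp (-((1 - 2 * t / W) * t ^ 2 / (2 * W))) := by
    have a := measure_ge_le_exp_mul_mgf (μ := P) (X := T) t hl0 (hint lam)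
    have b := (h Ω ι P hP X S hX hind h01 lam (by rw [abs_of_nonneg hl0]; exact hl1)).2
    rw [abs_of_nonneg hl0] at b
    refine a.trans (le_trans (mul_le_mul_of_nonneg_left b (Real.exp_pos _).le) key)
  have h2 : P.real {ω | T ω ≤ -t} ≤ Real.exp (-((1 - 2 * t / W) * t ^ 2 / (2 * W))) := by
    have a := measure_le_le_exp_mul_mgf (μ := P) (X := T) (-t) (neg_nonpos.2 hl0) (hint (-lam))
    have b := (h Ω ι P hP X S hX hind h01 (-lam)
      (by rw [abs_neg, abs_of_nonneg hl0]; exact hl1)).2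
    rw [abs_neg, abs_of_nonneg hl0, neg_sq] at b
    have e : -(-lam) * -t = -lam * t := by ring
    rw [e] at a
    exact a.trans (le_trans (mul_le_mul_of_nonneg_left b (Real.exp_pos _).le) key)
  have hsub : {ω | t ≤ |T ω|} ⊆ {ω | t ≤ T ω} ∪ {ω | T ω ≤ -t} := by
    intro ω hω
    have hω' : t ≤ |T ω| := hω
    rcases le_abs.1 hω' with h | h
    · exact Or.inl h
    · exact Or.inr (by simp only [Set.mem_setOf_eq]; linarith)
  calc P.real {ω | t ≤ |T ω|} ≤ P.real ({ω | t ≤ T ω} ∪ {ω | T ω ≤ -t}) :=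
        measureReal_mono hsub (measure_ne_top _ _)
    _ ≤ P.real {ω | t ≤ T ω} + P.real {ω | T ω ≤ -t} := measureReal_union_le _ _
    _ ≤ _ := by linarith

end Pool.Agent.U600.NG
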